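import Pool.Agent.Helper74.BS.St

set_option autoImplicit false

namespace Pool.Agent.Helper38.BS

open Pool.Agent.Helper73.DC Pool.Agent.Helper74.BS

theorem cn_nil (K j : ℕ) : cn K j Fo.nil = 0 := by
  cases j <;> rfl

theorem cn_z (K : ℕ) (a b : Fo) : cn K 0 (Fo.nd a b) = max 1 (cn K 0 a) + cn K 0 b := rfl

theorem cn_s (K j : ℕ) (a b : Fo) : cn K (j + 1) (Fo.nd a b) =
    max (if K ≤ cn K j (Fo.nd a Fo.nil) then 1 else 0) (cn K (j + 1) a) + cn K (j + 1) b := rfl

theorem cn_nd (K j : ℕ) (a b : Fo) : cn K j (Fo.nd a b) = cn K j (Fo.nd a Fo.nil) + cn K j b := by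
  cases j with
  | zero => rw [cn_z, cn_z K a Fo.nil, cn_nil, add_zero]
  | succ j => rw [cn_s, cn_s K j a Fo.nil, cn_nil, add_zero]

theorem p1 (K j : ℕ) (f g : Fo) : cn K j (app f g) = cn K j f + cn K j g := by
  induction f with
  | nil => rw [cn_nil, zero_add]; rfl
  | nd a b _ ihb =>
    show cn K j (Fo.nd a (app b g)) = _
    rw [cn_nd, ihb, cn_nd K j a b]
    ring

theorem p2 (K j : ℕ) : ∀ a b a' b' : Fo, (∀ K j, cn K j a ≤ cn K j a') → (∀ K j, cn K j b ≤ cn K j b') →
    cn K j (Fo.nd a b) ≤ cn K j (Fo.nd a' b') := by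
  induction j with
  | zero =>
    intro a b a' b' h1 h2
    rw [cn_z, cn_z]
    exact Nat.add_le_add (max_le_max le_rfl (h1 K 0)) (h2 K 0)
  | succ j ih =>
    intro a b a' b' h1 h2
    rw [cn_s, cn_s]
    have h3 := ih a Fo.nil a' Fo.nil h1 (fun _ _ => le_rfl)
    refine Nat.add_le_add (max_le_max ?_ (h1 K (j + 1))) (h2 K (j + 1))
    by_cases h4 : K ≤ cn K j (Fo.nd a Fo.nil)
    · rw [if_pos h4, if_pos (h4.trans h3)]
    · rw [if_neg h4]
      exact Nat.zero_le _

theorem p3 (K j : ℕ) : ∀ a b : Fo, cn K j (Fo.nd (Fo.nd a Fo.nil) b) = cn K j (Fo.nd a b) := by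
  induction j with
  | zero =>
    intro a b
    rw [cn_z, cn_z, cn_z, cn_nil]
    omega
  | succ j ih =>
    intro a b
    rw [cn_s, cn_s, cn_s, ih a Fo.nil, cn_nil, add_zero]
    congr 1
    rw [← max_assoc, max_self]

theorem p4 (K j : ℕ) (f g : Fo) : cn K j f ≤ cn K j (Fo.nd f g) := by
  cases j with
  | zero => rw [cn_z]; exact (le_max_right _ _).trans (Nat.le_add_right _ _)
  | succ j => rw [cn_s]; exact (le_max_right _ _).trans (Nat.le_add_right _ _)

theorem p5 (K j : ℕ) (f : Fo) : cn K (j + 1) f = 0 → cn K j f ≤ wd f * K := by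
  induction f with
  | nil => intro _; rw [cn_nil]; exact Nat.zero_le _
  | nd a b _ ihb =>
    intro h
    rw [cn_s] at h
    have h1 := (Nat.add_eq_zero_iff.1 h).2
    have h2 := (Nat.add_eq_zero_iff.1 h).1
    have h3 : (if K ≤ cn K j (Fo.nd a Fo.nil) then 1 else 0) = 0 := by
      have := le_max_left (if K ≤ cn K j (Fo.nd a Fo.nil) then 1 else 0) (cn K (j + 1) a)
      omega
    have h4 : ¬ K ≤ cn K j (Fo.nd a Fo.nil) := by
      intro h5
      rw [if_pos h5] at h3
      exact absurd h3 one_ne_zero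
    have h5 := ihb h1
    rw [cn_nd]
    show _ ≤ (wd b + 1) * K
    rw [add_mul, one_mul]
    omega

theorem wd_zero (f : Fo) : wd f = 0 → f = Fo.nil := by
  cases f with
  | nil => intro _; rfl
  | nd a b => intro h; exact absurd h (Nat.succ_ne_zero _)

theorem leaf_le (K j : ℕ) : cn K j (Fo.nd Fo.nil Fo.nil) ≤ 1 := by
  induction j with
  | zero => rw [cn_z, cn_nil]; simp
  | succ j _ =>
    rw [cn_s, cn_nil]
    split_ifs <;> simp

theorem p6 (K j : ℕ) (f : Fo) (hK : 2 ≤ K) (hf : wd f ≤ 1) : cn K (j + 1) (Fo.nd f Fo.nil) = cn K (j + 1) f := by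
  cases f with
  | nil =>
    have h := leaf_le K j
    have h1 : ¬ K ≤ cn K j (Fo.nd Fo.nil Fo.nil) := by omega
    rw [cn_s, if_neg h1, cn_nil]
    rfl
  | nd a b =>
    have h1 : wd b + 1 ≤ 1 := hf
    have h2 := wd_zero b (by omega)
    subst h2
    exact p3 K (j + 1) a Fo.nil

theorem p9a (K r : ℕ) (f : Fo) : K * cn K (r + 1) f ≤ cn K r f := by
  induction f with
  | nil => rw [cn_nil, mul_zero]; exact Nat.zero_le _
  | nd a b iha ihb =>
    rw [cn_s, cn_nd K r a b, mul_add]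
    refine Nat.add_le_add ?_ ihb
    rw [Nat.mul_max_mul_left K _ _ |>.symm]
    refine max_le ?_ (iha.trans (p4 K r a Fo.nil))
    by_cases h4 : K ≤ cn K r (Fo.nd a Fo.nil)
    · rw [if_pos h4, mul_one]; exact h4
    · rw [if_neg h4, mul_zero]; exact Nat.zero_le _

theorem p9 (K r : ℕ) (f : Fo) : K ^ r * cn K r f ≤ lv f := by
  induction r with
  | zero => rw [pow_zero, one_mul]; exact le_rfl
  | succ r ih =>
    rw [pow_succ, mul_assoc]
    exact (Nat.mul_le_mul_left _ (p9a K r f)).trans ih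

theorem hFO : Pool.Agent.Helper74.BS.StFO := by
  refine ⟨p1, fun a b a' b' h1 h2 K j => p2 K j a b a' b' h1 h2, p3, p4, p5, fun K j f h1 h2 => p6 K j f h1 h2, ?_, ?_, p9⟩
  · intro K f hf
    cases f with
    | nil => exact absurd rfl hf
    | nd a b => rw [cn_z]; exact (le_max_left _ _).trans (Nat.le_add_right _ _)
  · intro f g
    induction f with
    | nil => show wd g = 0 + wd g; rw [zero_add]
    | nd a b _ ihb =>
      show wd (app b g) + 1 = wd b + 1 + wd g
      rw [ihb]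
      ring

end Pool.Agent.Helper38.BS
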